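import Pool.Agent.Lib.MP_acafa7_al.F.FullC
import Pool.Agent.Lib.MP_acafa7_al.F.H36.BN
import Pool.Agent.Lib.MP_acafa7_al.F.H43.Qend
import Pool.Agent.Lib.MP_acafa7_al.F.H48.QInA
import Pool.Agent.Lib.MP_acafa7_al.F.H76.Key1
import Pool.Agent.Lib.MP_acafa7_al.F.H78.Cnt

/-! The last steps of the assembly of the proof of Theorem F (PaperF.md). -/

namespace MSG

open Classical

theorem f_qend : QEndStatement := F43.qend_st
theorem f_cnt : CntStatement := F78.cnt_st
theorem f_key1 : Key1Statement := F76.key1_st f_tk f_cnt f_sper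
theorem f_keya : KeyAStatement := F70.keya_st f_cmap2 f_key1
theorem f_key : KeyStatement := F22.key_st f_keya f_vit
theorem f_bn : BNStatement := F36.bn_st f_con f_key f_genp f_bna
theorem f_thmfc : ThmFCStatement := F48.thmfc_st f_ls f_con f_bn f_torb f_qcb
theorem f_qina : QInAStatement := F48.qina_st f_qflip
theorem f_thmq : ThmQStatement :=
  F65.thmq_st f_qgb f_qfan f_qina f_qinb f_qhair f_qend f_qpush f_fanarea
theorem f_minq : MinQStatement := F67.minq_st f_thmq f_pred f_qarea
theorem f_coarse : CoarseStatement := F70.coarse_st f_cst f_minq f_geop f_spha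

/-- Theorem F: abelian torsion subgroups of metrically systolic groups are finite. -/
theorem f_thmf : ThmFStatement := F15.thmf_st f_coarse f_act f_thmfc

/-- Solvable subgroups of metrically systolic groups are virtually `Z^r` with `r ≤ 2`. -/
theorem final_all (Γ : Type) [Group Γ] (hΓ : IsMSGroup Γ) (H : Subgroup Γ)
    (hs : Group.IsSolvable H) :
    ∃ r : ℕ, r ≤ 2 ∧ ∃ A : Subgroup Γ, A ≤ H ∧ A.relIndex H ≠ 0 ∧
      Nonempty (A ≃* Multiplicative (Fin r → ℤ)) :=
  F15.final_st f_thmf f_solv Γ hΓ H hs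

end MSG
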