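import Pool.Agent.Lib.MP_acafa7_al.MS.Iface3

/-! Definitions for the proof that torsion abelian subgroups of metrically systolic groups are
finite (PaperF.md). -/

namespace MSG

open Classical

/-! ### Homotopies with weights in an abelian group -/

/-- Elementary homotopies inside `S` with weights in `A` (PaperF section 0). -/
inductive StpA {V A : Type} [AddCommGroup A] (G : SimpleGraph V) (S : Set V)
    (ω : V → V → V → A) : List V → List V → A → Prop
  | ins (u v : List V) (x y : V) : G.Adj x y → y ∈ S →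
      StpA G S ω (u ++ x :: v) (u ++ x :: y :: x :: v) 0
  | del (u v : List V) (x y : V) : G.Adj x y →
      StpA G S ω (u ++ x :: y :: x :: v) (u ++ x :: v) 0
  | exp (u v : List V) (x y z : V) : G.Adj x y → G.Adj y z → G.Adj x z → y ∈ S →
      StpA G S ω (u ++ x :: z :: v) (u ++ x :: y :: z :: v) (-(ω x y z))
  | con (u v : List V) (x y z : V) : G.Adj x y → G.Adj y z → G.Adj x z →
      StpA G S ω (u ++ x :: y :: z :: v) (u ++ x :: z :: v) (ω x y z)

/-- Sequences of elementary homotopies inside `S` with total weight. -/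
inductive HomA {V A : Type} [AddCommGroup A] (G : SimpleGraph V) (S : Set V)
    (ω : V → V → V → A) : List V → List V → A → Prop
  | refl (l : List V) : HomA G S ω l l 0
  | step {l l' l'' : List V} {e e' : A} : StpA G S ω l l' e → HomA G S ω l' l'' e' →
      HomA G S ω l l'' (e + e')

/-- alternating -/
def Alt3 {V A : Type} [AddCommGroup A] (ω : V → V → V → A) : Prop :=
  ∀ x y z, ω y x z = -(ω x y z) ∧ ω x z y = -(ω x y z)

/-- alternating functions with zero alternating sum over the faces of the 4-cliques of `S` -/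
structure CocA {V A : Type} [AddCommGroup A] (G : SimpleGraph V) (S : Set V)
    (ω : V → V → V → A) : Prop where
  alt : Alt3 ω
  coc : ∀ x y z t, x ∈ S → y ∈ S → z ∈ S → t ∈ S → G.Adj x y → G.Adj x z → G.Adj x t →
    G.Adj y z → G.Adj y t → G.Adj z t → ω y z t - ω x z t + ω x y t - ω x y z = 0

/-- no 3-torsion -/
def No3 (A : Type) [AddCommGroup A] : Prop := ∀ a : A, a + a + a = 0 → a = 0

/-- two walks are homotopic inside `S` -/
def HomN {V : Type} (G : SimpleGraph V) (S : Set V) (l l' : List V) : Prop :=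
  HomA G S (fun _ _ _ => (0 : ℤ)) l l' 0

/-! ### The hypotheses of the coarse part -/

/-- A finite set in which `l` and `l'` (walks with the same ends) are homotopic, of quadratic
size. -/
structure Fil2 {V : Type} (G : SimpleGraph V) (C : ℕ) (l l' : List V) (S : Finset V) : Prop where
  mem : ∀ v ∈ l ++ l', v ∈ S
  hom : HomN G S l l'
  card : S.card ≤ C * (l.length + l'.length) ^ 2
  near : ∀ q ∈ S, ∃ v ∈ l ++ l', G.dist q v ≤ C * (l.length + l'.length)
  sep : ∀ (s : ℕ) (T : Finset V), T ⊆ S → (∀ x ∈ T, ∀ y ∈ T, x ≠ y → s ≤ G.dist x y) →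
    s ^ 2 * T.card ≤ C * (s + (l.length + l'.length)) ^ 2

/-- Everything that is used in the coarse part (PaperF sections 3-8). -/
structure CoarseHyp {V : Type} (G : SimpleGraph V) (C : ℕ) : Prop where
  conn : G.Connected
  ball : ∀ r : ℕ, ∃ n : ℕ, ∀ x : V, {y | G.dist x y ≤ r}.Finite ∧ {y | G.dist x y ≤ r}.ncard ≤ n
  geo : ∀ (x y : V) (l l' : List V), IsW G x y l → IsW G x y l' → ∃ S, Fil2 G C l l' S
  sph : ∀ (A : Type) [AddCommGroup A], No3 A → ∀ (S : Set V) (ω : V → V → V → A), CocA G S ω →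
    ∀ (x : V) (e : A), x ∈ S → HomA G S ω [x] [x] e → e = 0

/-- Automorphisms -/
def Aut {V : Type} (G : SimpleGraph V) (B : Type) [Group B] [MulAction B V] : Prop :=
  ∀ (b : B) x y, G.Adj (b • x) (b • y) ↔ G.Adj x y

/-- `Γ` acts by automorphisms, uniformly properly; torsion elements which move a point by at most
`r` have bounded order. -/
structure ActHyp {V : Type} (G : SimpleGraph V) (Γ : Type) [Group Γ] [MulAction Γ V] : Prop where
  aut : Aut G Γ
  prop : ∀ r : ℕ, ∃ n : ℕ, ∀ x : V, {g : Γ | G.dist x (g • x) ≤ r}.Finite ∧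
    {g : Γ | G.dist x (g • x) ≤ r}.ncard ≤ n
  ord : ∀ r : ℕ, ∃ P : ℕ, ∀ (x : V) (g : Γ), G.dist x (g • x) ≤ r → IsOfFinOrder g →
    orderOf g ≤ P

/-! ### Coarse maps -/

/-- Coarse map `π : S → Y` with colours `c` (PaperF 3.3). -/
structure CM {V : Type} (G : SimpleGraph V) (B : Type) [Group B] [MulAction B V] (S : Set V)
    {Y : Type} [MulAction B Y] (π : V → Y) (c : Y → ℕ) : Prop where
  inv : ∀ (b : B), ∀ x ∈ S, b • x ∈ S
  eqv : ∀ (b : B), ∀ x ∈ S, π (b • x) = b • π x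
  col : ∀ (b : B) (y : Y), c (b • y) = c y
  adj : ∀ x ∈ S, ∀ y ∈ S, G.Adj x y → π x = π y ∨ c (π x) ≠ c (π y)
  four : ∀ x ∈ S, ∀ y ∈ S, ∀ z ∈ S, ∀ t ∈ S, G.Adj x y → G.Adj x z → G.Adj x t → G.Adj y z →
    G.Adj y t → G.Adj z t →
    π x = π y ∨ π x = π z ∨ π x = π t ∨ π y = π z ∨ π y = π t ∨ π z = π t

/-- Kronecker -/
noncomputable def kr {Y : Type} (u v : Y) : ℤ := if u = v then 1 else 0

/-- Two-chains, one-chains, zero-chains of `Y`. -/
abbrev Ch2 (Y : Type) : Type := Y → Y → Y → ℤ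
abbrev Ch1 (Y : Type) : Type := Y → Y → ℤ
abbrev Ch0 (Y : Type) : Type := Y → ℤ

/-- The oriented simplex `u v w`, as a chain on increasing triples. -/
noncomputable def om0 {Y : Type} (c : Y → ℕ) (u v w : Y) : Ch2 Y := fun P Q R =>
  if c P < c Q ∧ c Q < c R then
    kr u P * (kr v Q * kr w R - kr v R * kr w Q) - kr u Q * (kr v P * kr w R - kr v R * kr w P) +
      kr u R * (kr v P * kr w Q - kr v Q * kr w P)
  else 0

/-- The weight function of a coarse map. -/
noncomputable def om {V Y : Type} (π : V → Y) (c : Y → ℕ) (x y z : V) : Ch2 Y :=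
  om0 c (π x) (π y) (π z)

/-- The oriented edge `u v`, as a chain on increasing pairs. -/
noncomputable def ed0 {Y : Type} (c : Y → ℕ) (u v : Y) : Ch1 Y := fun P Q =>
  if c P < c Q then kr u P * kr v Q - kr u Q * kr v P else 0

/-- One-chain of a walk. -/
noncomputable def edw {V Y : Type} (π : V → Y) (c : Y → ℕ) : List V → Ch1 Y
  | x :: y :: l => ed0 c (π x) (π y) + edw π c (y :: l)
  | _ => 0

/-- boundary of 2-chains -/
noncomputable def bd2 {Y : Type} [Fintype Y] (c : Y → ℕ) (N : Ch2 Y) : Ch1 Y := fun P Q =>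
  if c P < c Q then ∑ R : Y, (N P Q R - N P R Q + N R P Q) else 0

/-- boundary of 1-chains -/
noncomputable def bd1 {Y : Type} [Fintype Y] (ν : Ch1 Y) : Ch0 Y := fun P =>
  ∑ Q : Y, (ν Q P - ν P Q)

/-- supported on increasing triples / pairs -/
def Inc2 {Y : Type} (c : Y → ℕ) (N : Ch2 Y) : Prop := ∀ P Q R, ¬ (c P < c Q ∧ c Q < c R) → N P Q R = 0
def Inc1 {Y : Type} (c : Y → ℕ) (ν : Ch1 Y) : Prop := ∀ P Q, ¬ c P < c Q → ν P Q = 0

/-- action of `b` on chains -/
def ac2 {B Y : Type} [Group B] [MulAction B Y] (b : B) (N : Ch2 Y) : Ch2 Y := fun P Q R =>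
  N (b⁻¹ • P) (b⁻¹ • Q) (b⁻¹ • R)
def ac1 {B Y : Type} [Group B] [MulAction B Y] (b : B) (ν : Ch1 Y) : Ch1 Y := fun P Q =>
  ν (b⁻¹ • P) (b⁻¹ • Q)

/-- `P, Q` lie in the support of `N` -/
def InSupp {Y : Type} (N : Ch2 Y) (P Q : Y) : Prop :=
  ∃ R, N P Q R ≠ 0 ∨ N P R Q ≠ 0 ∨ N R P Q ≠ 0 ∨ N Q P R ≠ 0 ∨ N Q R P ≠ 0 ∨ N R Q P ≠ 0

/-! ### Jumps -/

/-- `x` is moved by at most `K` by all elements of `B`. -/
def Dp {V : Type} (G : SimpleGraph V) (B : Type) [Group B] [MulAction B V] (x : V) (K : ℕ) : Prop :=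
  ∀ b : B, G.dist x (b • x) ≤ K

/-- `x` and `y` are joined by at most `N` jumps of size at most `k` inside `F`. -/
def Jmp {V : Type} (G : SimpleGraph V) (F : Set V) (k N : ℕ) (x y : V) : Prop :=
  ∃ q : ℕ → V, q 0 = x ∧ q N = y ∧ (∀ i, i ≤ N → q i ∈ F) ∧ ∀ i, i < N → G.dist (q i) (q (i + 1)) ≤ k

end MSG
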