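import Pool.Agent.Lib.MP_acafa7_al.F.IfaceC
import Pool.Agent.Lib.MP_acafa7_al.MS.Iface2

/-! Statements of parts Q and G (PaperF section 2): Theorem Q, minimal maps, growth, GEO, and the
final statements. -/

namespace MSG

open Classical

/-! ### Part Q: nonpositively curved metric discs -/

/-- area of a Euclidean triangle with sides `a, b, c` -/
noncomputable def tarea (a b c : ℝ) : ℝ := (1 / 2) * a * b * Real.sin (ang a b c)

/-- three times the area of the triangles outside `R` -/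
noncomputable def DMap.area3 {D : Type} [Fintype D] (M : DMap D) (ℓ : D → ℝ) (R : List D) : ℝ :=
  ∑ d : D, if d ∈ R then 0 else tarea (ℓ d) (ℓ (M.φ (M.φ d))) (ℓ (M.φ d))

/-- Metric disc: planar, one big face `R`, nonpositive curvature off `R`. -/
structure IsMD {D : Type} [Fintype D] (M : DMap D) (R : List D) (ℓ : D → ℝ) : Prop where
  planar : M.Planar
  face : M.IsFace R
  off : M.Off3 {d | d ∈ R}
  lenok : M.LenOK ℓ {d | d ∈ R}
  npc : ∀ d, (∀ b ∈ R, ¬ M.SameV d b) → M.curv ℓ {d | d ∈ R} d ≤ 0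

/-- `o` is the only `R`-dart at its vertex and the curvature there is positive. -/
structure DMk {D : Type} [Fintype D] (M : DMap D) (R : List D) (ℓ : D → ℝ) (o : D) : Prop where
  mem : o ∈ R
  uni : ∀ b ∈ R, M.SameV o b → b = o
  curv : 0 < M.curv ℓ {d | d ∈ R} o
  ne : M.φ o ≠ o

/-- The fan at `o`: spokes `s 0 = ι i, .., s k = o` where `φ i = o`. -/
structure DFan {D : Type} [Fintype D] (M : DMap D) (R : List D) (ℓ : D → ℝ) (o : D) (k : ℕ)
    (s : ℕ → D) : Prop where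
  zero : M.φ (M.ι (s 0)) = o
  last : s k = o
  next : ∀ j, j < k → s (j + 1) = M.ι (M.φ (M.φ (s j)))
  tri : ∀ j, j < k → s j ∉ R
  inj : ∀ j j', j ≤ k → j' ≤ k → s j = s j' → j = j'
  cls : ∀ d, M.SameV o d ↔ ∃ j, j ≤ k ∧ s j = d
  curv : M.curv ℓ {d | d ∈ R} o = Real.pi - ∑ j ∈ Finset.range k, M.th ℓ (s j)
  end0 : ¬ M.SameV o (M.ι (s 0))
  endk : ¬ M.SameV o (M.ι (s k))

/-- the same boundary, area and curvature at `o`, smaller degree of `o` -/
def DSmall {D : Type} [Fintype D] (M : DMap D) (R : List D) (ℓ : D → ℝ) (o : D) : Prop :=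
  ∃ (M' : DMap D) (ℓ' : D → ℝ), IsMD M' R ℓ' ∧ DMk M' R ℓ' o ∧
    (∀ d ∈ R, ℓ' d = ℓ d ∧ M'.φ d = M.φ d) ∧
    M'.curv ℓ' {d | d ∈ R} o = M.curv ℓ {d | d ∈ R} o ∧ M'.area3 ℓ' R = M.area3 ℓ R ∧
    M'.deg o < M.deg o

/-- QGB: Gauss-Bonnet for discs, choice of `o` -/
def QGBStatement : Prop :=
  ∀ (D : Type) [Fintype D] (M : DMap D) (R : List D) (ℓ : D → ℝ), IsMD M R ℓ →
    ∃ o, DMk M R ℓ o ∧
      Real.pi * (ℓ (M.φ.symm o) + ℓ o) ≤ (R.map ℓ).sum * M.curv ℓ {d | d ∈ R} o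

/-- QFAN -/
def QFanStatement : Prop :=
  ∀ (D : Type) [Fintype D] (M : DMap D) (R : List D) (ℓ : D → ℝ) (o : D), IsMD M R ℓ →
    DMk M R ℓ o → ∃ (k : ℕ) (s : ℕ → D), DFan M R ℓ o k s

/-- QAREA: areas and flips -/
def QAreaStatement : Prop :=
  (∀ a b c : ℝ, Tr a b c → tarea a b c = tarea b c a ∧ tarea a b c = tarea b a c ∧
    0 < tarea a b c) ∧
  ∀ c a1 a2 b1 b2 L : ℝ, QH c a1 a2 b1 b2 → QL c a1 a2 b1 b2 L →
    tarea c a1 a2 + tarea c b1 b2 = tarea L a2 b1 + tarea L b2 a1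

/-- QFLIP -/
def QFlipStatement : Prop :=
  ∀ (D : Type) [Fintype D] (M : DMap D) (R : List D) (ℓ : D → ℝ), IsMD M R ℓ → ∀ s : D,
    s ∉ R → M.ι s ∉ R → M.ι s ≠ M.φ s → M.ι s ≠ M.φ (M.φ s) →
    M.th ℓ s + M.th ℓ (M.φ (M.ι s)) < Real.pi → M.th ℓ (M.ι s) + M.th ℓ (M.φ s) < Real.pi →
    ∃ (M' : DMap D) (ℓ' : D → ℝ), IsFlip M M' s ∧ IsMD M' R ℓ' ∧
      (∀ d, d ≠ s → d ≠ M.ι s → ℓ' d = ℓ d ∧
        M'.curv ℓ' {d | d ∈ R} d = M.curv ℓ {d | d ∈ R} d) ∧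
      M'.area3 ℓ' R = M.area3 ℓ R

/-- QINA: a loop among the inner spokes -/
def QInAStatement : Prop :=
  ∀ (D : Type) [Fintype D] (M : DMap D) (R : List D) (ℓ : D → ℝ) (o : D) (k : ℕ) (s : ℕ → D),
    IsMD M R ℓ → DMk M R ℓ o → DFan M R ℓ o k s → ∀ j, 0 < j → j < k →
    M.SameV o (M.ι (s j)) → DSmall M R ℓ o

/-- QINB: an end with angle sum less than `π` -/
def QInBStatement : Prop :=
  ∀ (D : Type) [Fintype D] (M : DMap D) (R : List D) (ℓ : D → ℝ) (o : D) (k : ℕ) (s : ℕ → D),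
    IsMD M R ℓ → DMk M R ℓ o → DFan M R ℓ o k s → (∀ j, j ≤ k → ¬ M.SameV o (M.ι (s j))) →
    ∀ j, 0 < j → j < k → M.th ℓ (M.ι (s j)) + M.th ℓ (M.φ (s j)) < Real.pi → DSmall M R ℓ o

/-- QHAIR: removal of a hair -/
def QHairStatement : Prop :=
  ∀ (D : Type) [Fintype D] (M : DMap D) (R : List D) (ℓ : D → ℝ) (o : D), IsMD M R ℓ →
    DMk M R ℓ o → M.φ (M.ι o) = o → M.φ o ≠ M.ι o →
    ∃ (D' : Type) (_ : Fintype D') (M' : DMap D') (R' : List D') (ℓ' : D' → ℝ), IsMD M' R' ℓ' ∧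
      M'.area3 ℓ' R' = M.area3 ℓ R ∧ (R'.map ℓ').sum ≤ (R.map ℓ).sum ∧
      Fintype.card D' < Fintype.card D

/-- QEND: the big face is one edge -/
def QEndStatement : Prop :=
  ∀ (D : Type) [Fintype D] (M : DMap D) (R : List D) (ℓ : D → ℝ) (o : D), IsMD M R ℓ →
    o ∈ R → M.φ (M.ι o) = o → M.φ o = M.ι o → M.area3 ℓ R = 0

/-- QPUSH: deletion of the vertex of `o` -/
def QPushStatement : Prop :=
  ∀ (D : Type) [Fintype D] (M : DMap D) (R : List D) (ℓ : D → ℝ) (o : D) (k : ℕ) (s : ℕ → D),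
    IsMD M R ℓ → DMk M R ℓ o → DFan M R ℓ o k s → 1 ≤ k →
    (∀ j, j ≤ k → ¬ M.SameV o (M.ι (s j))) →
    ∃ (D' : Type) (_ : Fintype D') (M' : DMap D') (R' : List D') (ℓ' : D' → ℝ), IsMD M' R' ℓ' ∧
      Fintype.card D' < Fintype.card D ∧
      (R'.map ℓ').sum = (R.map ℓ).sum - (ℓ (s 0) + ℓ (s k)) +
        ∑ j ∈ Finset.range k, ℓ (M.φ (s j)) ∧
      M.area3 ℓ R = M'.area3 ℓ' R' +
        3 * ∑ j ∈ Finset.range k, tarea (ℓ (s j)) (ℓ (s (j + 1))) (ℓ (M.φ (s j)))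

/-- FANAREA (2.2) -/
def FanAreaStatement : Prop :=
  ∀ (k : ℕ) (r c : ℕ → ℝ), 1 ≤ k → (∀ j, j < k → Tr (r j) (c j) (r (j + 1))) →
    (∀ j, j + 1 < k → Real.pi ≤
      ang (r (j + 1)) (c j) (r j) + ang (c (j + 1)) (r (j + 1)) (r (j + 2))) →
    ∑ j ∈ Finset.range k, ang (r j) (r (j + 1)) (c j) < Real.pi →
    (Real.pi - ∑ j ∈ Finset.range k, ang (r j) (r (j + 1)) (c j)) *
      ∑ j ∈ Finset.range k, tarea (r j) (r (j + 1)) (c j) ≤
      (r 0 + r k) * (r 0 + r k - ∑ j ∈ Finset.range k, c j)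

/-- THMQ (2.1): `area ≤ L ^ 2 / π` -/
def ThmQStatement : Prop :=
  ∀ (D : Type) [Fintype D] (M : DMap D) (R : List D) (ℓ : D → ℝ), IsMD M R ℓ →
    Real.pi * M.area3 ℓ R ≤ 3 * ((R.map ℓ).sum) ^ 2

/-! ### Part G: labelled maps -/

/-- labelled map, labels constant along vertices -/
structure PMap (V D : Type) extends DMap D where
  f : D → V
  tgt : ∀ d, f (ι d) = f (φ d)

/-- closed walk of a face -/
def PMap.wk {V D : Type} (M : PMap V D) (R : List D) : List V := R.map M.f ++ (R.map M.f).take 1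

/-- lengths of the edges -/
noncomputable def PMap.ln {V D : Type} (M : PMap V D) (X : Cx V) (d : D) : ℝ :=
  X.len (M.f d) (M.f (M.ι d))

/-- planar labelled map with big face `R` with walk `w`, all other darts in triangles -/
structure IsPF {V D : Type} [Fintype D] (G : SimpleGraph V) (M : PMap V D) (R : List D)
    (w : List V) : Prop where
  planar : M.Planar
  adj : ∀ d, G.Adj (M.f d) (M.f (M.ι d))
  face : M.IsFace R
  off : M.Off3 {d | d ∈ R}
  walk : w = M.wk R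

/-- with the least number of darts -/
def IsMin {V D : Type} [Fintype D] (G : SimpleGraph V) (M : PMap V D) (R : List D)
    (w : List V) : Prop :=
  IsPF G M R w ∧ ∀ (D' : Type) [Fintype D'] (M' : PMap V D') (R' : List D'), IsPF G M' R' w →
    Fintype.card D ≤ Fintype.card D'

/-- The complex `X × ℤ` and its shift. -/
def Cx.times {V : Type} (X : Cx V) : Cx (V × ℤ) where
  G := { Adj := fun p q => X.G.Adj p.1 q.1 ∧ p.2 = q.2
         symm := ⟨fun _ _ h => ⟨h.1.symm, h.2.symm⟩⟩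
         loopless := ⟨fun p h => X.G.loopless.irrefl p.1 h.1⟩ }
  len p q := X.len p.1 q.1

def shft (V : Type) : Equiv.Perm (V × ℤ) where
  toFun p := (p.1, p.2 + 1)
  invFun p := (p.1, p.2 - 1)
  left_inv p := by simp
  right_inv p := by simp

/-- zero-shift map over `V × ℤ` -/
def PMap.toL {V D : Type} (M : PMap V D) : LMap (V × ℤ) D (shft V) where
  toDMap := M.toDMap
  f d := (M.f d, 0)
  γ _ := 0
  h _ := 0
  γι := by simp
  tgt := by simp [M.tgt]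

/-- projection of a zero-shift map -/
def LMap.toP {V D : Type} (M : LMap (V × ℤ) D (shft V)) (h : M.Zero) : PMap V D where
  toDMap := M.toDMap
  f d := (M.f d).1
  tgt d := by
    have h1 := M.tgt d
    rw [(h d).1, (h d).2] at h1
    simpa using congrArg Prod.fst h1

/-- BRG: the complex `X × ℤ` -/
def BrgStatement : Prop :=
  ∀ (V : Type) (X : Cx V), (X.IsMetric → X.times.IsMetric) ∧ (X.Large → X.times.Large) ∧
    FreeAut X.times (shft V)

/-- PSTEP: one move on the big face -/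
def PStepStatement : Prop :=
  ∀ (V D : Type) [Fintype D] (G : SimpleGraph V) (S : Set V) (M : PMap V D) (R : List D)
    (w w' : List V) (e : ZMod 2), IsPF G M R w → (∀ d, M.f d ∈ S) →
    Stp G S (fun _ _ _ => 0) w w' e → 3 ≤ w'.length →
    ∃ (D' : Type) (_ : Fintype D') (M' : PMap V D') (R' : List D'), IsPF G M' R' w' ∧
      ∀ d, M'.f d ∈ S

/-- PFILL: filling a face `F` by triangles -/
def PFillStatement : Prop :=
  ∀ (V D : Type) [Fintype D] (G : SimpleGraph V) (S : Set V) (M : PMap V D) (F : List D)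
    (e : ZMod 2) (n : ℕ), M.Planar → (∀ d, G.Adj (M.f d) (M.f (M.ι d))) → M.IsFace F →
    NulP G S (fun _ _ _ => 0) (M.wk F) e n → (∀ d, M.f d ∈ S) →
    ∃ (D' : Type) (_ : Fintype D') (M' : PMap V D') (j : {d : D // d ∉ F} → D'),
      Function.Injective j ∧ (∀ x y, M.φ x.1 = y.1 → M'.φ (j x) = j y) ∧
      (∀ x, M'.f (j x) = M.f x.1) ∧ (∀ d', (∀ x, j x ≠ d') → M'.Tri3 d') ∧ M'.Planar ∧
      (∀ d, G.Adj (M'.f d) (M'.f (M'.ι d))) ∧ (∀ d, M'.f d ∈ S) ∧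
      Fintype.card D' + F.length = Fintype.card D + 3 * n

/-- PRED: positive curvature off `R` can be removed -/
def PRedStatement : Prop :=
  ∀ (V D : Type) [Fintype D] (X : Cx V), X.IsMetric → X.Large → ∀ (M : PMap V D) (R : List D)
    (w : List V) (d₀ : D), IsPF X.G M R w → (∀ b ∈ R, ¬ M.SameV d₀ b) →
    0 < M.curv (M.ln X) {d | d ∈ R} d₀ →
    ∃ (D' : Type) (_ : Fintype D') (M' : PMap V D') (R' : List D'), IsPF X.G M' R' w ∧
      Fintype.card D' < Fintype.card D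

/-- all closed walks are null-homotopic -/
def ScN {V : Type} (G : SimpleGraph V) : Prop :=
  ∀ (x : V) (l : List V), IsW G x x l → HomN G Set.univ l [x]

/-- quadratic isoperimetric inequality for minimal maps -/
def QI {V : Type} (G : SimpleGraph V) (C₁ : ℕ) : Prop :=
  ∀ (D : Type) [Fintype D] (M : PMap V D) (R : List D) (w : List V), IsMin G M R w →
    Fintype.card D ≤ R.length + 3 * (C₁ * R.length ^ 2)

/-- PEX: maps with given boundary walk exist, also minimal ones -/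
def PExStatement : Prop :=
  ∀ (V : Type) (G : SimpleGraph V) (x : V) (w : List V), IsW G x x w → 3 ≤ w.length →
    HomN G Set.univ w [x] →
    ∃ (D : Type) (_ : Fintype D) (M : PMap V D) (R : List D), IsMin G M R w

/-- MINQ -/
def MinQStatement : Prop :=
  ∀ (a₀ Λ : ℝ), 0 < a₀ → ∃ C₁ : ℕ, ∀ (V : Type) (X : Cx V), X.IsMetric → X.Large →
    (∀ x y, X.G.Adj x y → X.len x y ≤ Λ) →
    (∀ x y z, X.G.Adj x y → X.G.Adj y z → X.G.Adj x z →
      a₀ ≤ tarea (X.len x y) (X.len y z) (X.len z x)) → QI X.G C₁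

/-- D2H (2.4): a disc gives a homotopy -/
def D2HStatement : Prop :=
  ∀ (V D : Type) [Fintype D] (G : SimpleGraph V) (S : Set V) (M : PMap V D) (R : List D)
    (w : List V), IsPF G M R w → (∀ d, M.f d ∈ S) →
    ∃ (n : ℕ) (e : ZMod 2), NulP G S (fun _ _ _ => 0) w e n ∧
      3 * n + R.length ≤ Fintype.card D

/-- NULH: `NulP` gives a null-homotopy -/
def NulHStatement : Prop :=
  ∀ (V : Type) (G : SimpleGraph V) (S : Set V) (x : V) (w : List V) (e : ZMod 2) (n : ℕ),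
    NulP G S (fun _ _ _ => 0) w e n → (∀ v ∈ w, v ∈ S) → IsW G x x w → HomN G S w [x]

/-- QUADN: quadratic fillings -/
def QuadNStatement : Prop :=
  ∀ (V : Type) (G : SimpleGraph V) (C₁ : ℕ), ScN G → QI G C₁ → ∀ (x : V) (w : List V),
    IsW G x x w → 3 ≤ w.length →
    ∃ (n : ℕ) (e : ZMod 2), NulP G Set.univ (fun _ _ _ => 0) w e n ∧
      n ≤ C₁ * (w.length - 1) ^ 2

/-- RESTR (2.5): restriction to a set of vertices of the graph -/
def RestrStatement : Prop :=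
  ∀ (V D : Type) [Fintype D] (M : PMap V D) (W : Set V), M.Planar →
    ∃ (D' : Type) (_ : Fintype D') (M' : PMap V D') (q : D' → D), Function.Injective q ∧
      (∀ d, (∃ x, q x = d) ↔ M.f d ∈ W ∧ M.f (M.ι d) ∈ W) ∧
      (∀ x, M'.f x = M.f (q x) ∧ q (M'.ι x) = M.ι (q x)) ∧
      (∀ x y, M.φ (q x) = q y → M'.φ x = y) ∧ M'.Planar

/-- FILLALL: filling all faces of the union `B` of faces -/
def FillAllStatement : Prop :=
  ∀ (V : Type) (G : SimpleGraph V) (C₁ : ℕ), (∀ (x : V) (w : List V), IsW G x x w →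
      3 ≤ w.length → ∃ (n : ℕ) (e : ZMod 2), NulP G Set.univ (fun _ _ _ => 0) w e n ∧
      n ≤ C₁ * (w.length - 1) ^ 2) →
    ∀ (D : Type) [Fintype D] (M : PMap V D) (R : List D) (B : Set D), M.Planar →
    (∀ d, G.Adj (M.f d) (M.f (M.ι d))) → M.IsFace R → (∀ d ∈ B, M.φ d ∈ B ∧ d ∉ R) →
    (∀ d, d ∉ B → d ∉ R → M.Tri3 d) →
    ∃ (D' : Type) (_ : Fintype D') (M' : PMap V D') (R' : List D'), IsPF G M' R' (M.wk R) ∧
      Fintype.card D' + Nat.card B ≤ Fintype.card D + 3 * (C₁ * (Nat.card B) ^ 2)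

/-- number of darts in triangles with a label at distance less than `m` from `q` -/
noncomputable def Um {V D : Type} [Fintype D] (G : SimpleGraph V) (M : PMap V D) (R : List D)
    (q : V) (m : ℕ) : ℕ :=
  (Finset.univ.filter (fun d : D => d ∉ R ∧ (G.dist q (M.f d) < m ∨
    G.dist q (M.f (M.φ d)) < m ∨ G.dist q (M.f (M.φ (M.φ d))) < m))).card

/-- GROW (2.6) -/
def GrowStatement : Prop :=
  ∀ (V : Type) (G : SimpleGraph V) (C₁ : ℕ), G.Connected → ScN G → QI G C₁ →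
    ∀ (D : Type) [Fintype D] (M : PMap V D) (R : List D) (w : List V), IsMin G M R w →
    ∀ (q : V) (m : ℕ), (∀ v ∈ w, m + 1 ≤ G.dist q v) →
    3 * Um G M R q (m + 1) ≤ C₁ * (Um G M R q (m + 1) - Um G M R q m) ^ 2

/-- GRN: numbers of the growth lemma -/
def GrNStatement : Prop :=
  ∀ (C₁ n : ℕ) (U : ℕ → ℕ), 1 ≤ n → (∀ m, m < n → U m ≤ U (m + 1)) →
    (∀ m, m < n → 3 * U (m + 1) ≤ C₁ * (U (m + 1) - U m) ^ 2) → 1 ≤ U 1 →
    3 * n ^ 2 ≤ 4 * C₁ * U n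

/-- GEO (2.7) -/
def GeoStatement : Prop :=
  ∀ C₁ : ℕ, ∃ C : ℕ, ∀ (V : Type) (G : SimpleGraph V), G.Connected → ScN G → QI G C₁ →
    ∀ (x : V) (w : List V), IsW G x x w → 3 ≤ w.length →
    ∃ S : Finset V, (∀ v ∈ w, v ∈ S) ∧ HomN G (S : Set V) w [x] ∧
      S.card ≤ C * w.length ^ 2 ∧ (∀ q ∈ S, ∃ v ∈ w, G.dist q v ≤ C * w.length) ∧
      ∀ (s : ℕ) (T : Finset V), T ⊆ S → (∀ u ∈ T, ∀ v ∈ T, u ≠ v → s ≤ G.dist u v) →
        s ^ 2 * T.card ≤ C * (s + w.length) ^ 2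

/-- GEOP: the form used in the coarse part -/
def GeoPStatement : Prop :=
  ∀ C₁ : ℕ, ∃ C : ℕ, ∀ (V : Type) (G : SimpleGraph V), G.Connected → ScN G → QI G C₁ →
    ∀ (x y : V) (l l' : List V), IsW G x y l → IsW G x y l' → ∃ S, Fil2 G C l l' S

/-! ### Final part -/

/-- SPHA (Proposition 1.1) -/
def SphAStatement : Prop :=
  ∀ (V A : Type) [AddCommGroup A] (X : Cx V), X.IsMetric → X.Large → No3 A → ∀ (S : Set V)
    (ω : V → V → V → A), CocA X.G S ω → ∀ (x : V) (e : A), x ∈ S → HomA X.G S ω [x] [x] e → e = 0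

/-- CST: bounds for the lengths and the areas -/
def CstStatement : Prop :=
  ∀ (V : Type) (X : Cx V) (Γ : Type) [Group Γ] [MulAction Γ V], X.IsMS → X.IsGeom Γ →
    ∃ a₀ Λ : ℝ, 0 < a₀ ∧ (∀ x y, X.G.Adj x y → X.len x y ≤ Λ) ∧
      ∀ x y z, X.G.Adj x y → X.G.Adj y z → X.G.Adj x z →
        a₀ ≤ tarea (X.len x y) (X.len y z) (X.len z x)

/-- COARSE -/
def CoarseStatement : Prop :=
  ∀ (V : Type) (X : Cx V) (Γ : Type) [Group Γ] [MulAction Γ V], X.IsMS → X.IsGeom Γ →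
    ∃ C, CoarseHyp X.G C

/-- ACT -/
def ActStatement : Prop :=
  ∀ (V : Type) (X : Cx V) (Γ : Type) [Group Γ] [MulAction Γ V], X.IsMS → X.IsGeom Γ →
    ActHyp X.G Γ

/-- THMF: Theorem F -/
def ThmFStatement : Prop :=
  ∀ (Γ : Type) [Group Γ], IsMSGroup Γ → ∀ A : Subgroup Γ, (∀ a ∈ A, ∀ b ∈ A, a * b = b * a) →
    (∀ a ∈ A, IsOfFinOrder a) → (A : Set Γ).Finite

/-- SOLV (9.1) -/
def SolvStatement : Prop :=
  ∀ (Γ : Type) [Group Γ], (∀ A : Subgroup Γ, (∀ a ∈ A, ∀ b ∈ A, a * b = b * a) →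
      (∀ a ∈ A, IsOfFinOrder a) → (A : Set Γ).Finite) →
    ∀ H : Subgroup Γ, Group.IsSolvable H → (∀ a ∈ H, IsOfFinOrder a) → (H : Set Γ).Finite

/-- FINAL: every solvable subgroup is finite, virtually `Z` or virtually `Z^2` -/
def FinalFStatement : Prop :=
  ∀ (Γ : Type) [Group Γ], IsMSGroup Γ → ∀ H : Subgroup Γ, Group.IsSolvable H →
    (H : Set Γ).Finite ∨ VZ1 H ∨ VZ2 H

end MSG
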