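import Pool.Agent.Lib.MP_acafa7_al.F.H03.Halg
import Pool.Agent.Lib.MP_acafa7_al.F.H03.SphA
import Pool.Agent.Lib.MP_acafa7_al.F.H06.PropE
import Pool.Agent.Lib.MP_acafa7_al.F.H08.Restr
import Pool.Agent.Lib.MP_acafa7_al.F.H09.Brg
import Pool.Agent.Lib.MP_acafa7_al.F.H09.Pfill
import Pool.Agent.Lib.MP_acafa7_al.F.H15.ThmF
import Pool.Agent.Lib.MP_acafa7_al.F.H16.OmC
import Pool.Agent.Lib.MP_acafa7_al.F.H19.NulH
import Pool.Agent.Lib.MP_acafa7_al.F.H22.Key
import Pool.Agent.Lib.MP_acafa7_al.F.H23.Pex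
import Pool.Agent.Lib.MP_acafa7_al.F.H24.QInB
import Pool.Agent.Lib.MP_acafa7_al.F.H24.TkA
import Pool.Agent.Lib.MP_acafa7_al.F.H31.Cst
import Pool.Agent.Lib.MP_acafa7_al.F.H31.Idc
import Pool.Agent.Lib.MP_acafa7_al.F.H31.Qcb
import Pool.Agent.Lib.MP_acafa7_al.F.H32.Avg
import Pool.Agent.Lib.MP_acafa7_al.F.H32.Enge
import Pool.Agent.Lib.MP_acafa7_al.F.H32.FanArea
import Pool.Agent.Lib.MP_acafa7_al.F.H32.Fix
import Pool.Agent.Lib.MP_acafa7_al.F.H32.FreeSt
import Pool.Agent.Lib.MP_acafa7_al.F.H32.Psum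
import Pool.Agent.Lib.MP_acafa7_al.F.H38.Grow
import Pool.Agent.Lib.MP_acafa7_al.F.H4.Crn
import Pool.Agent.Lib.MP_acafa7_al.F.H47.ConA
import Pool.Agent.Lib.MP_acafa7_al.F.H47.Geo
import Pool.Agent.Lib.MP_acafa7_al.F.H48.ThmFC
import Pool.Agent.Lib.MP_acafa7_al.F.H49.BNA
import Pool.Agent.Lib.MP_acafa7_al.F.H55.Pred
import Pool.Agent.Lib.MP_acafa7_al.F.H59.QUADN
import Pool.Agent.Lib.MP_acafa7_al.F.H63.Engc
import Pool.Agent.Lib.MP_acafa7_al.F.H64.QHair
import Pool.Agent.Lib.MP_acafa7_al.F.H65.CMap2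
import Pool.Agent.Lib.MP_acafa7_al.F.H65.Conn
import Pool.Agent.Lib.MP_acafa7_al.F.H65.ThmQ
import Pool.Agent.Lib.MP_acafa7_al.F.H65.TkU
import Pool.Agent.Lib.MP_acafa7_al.F.H66.LS
import Pool.Agent.Lib.MP_acafa7_al.F.H67.MinQ
import Pool.Agent.Lib.MP_acafa7_al.F.H69.CMap1
import Pool.Agent.Lib.MP_acafa7_al.F.H69.ColSt
import Pool.Agent.Lib.MP_acafa7_al.F.H69.CosetSt
import Pool.Agent.Lib.MP_acafa7_al.F.H70.Coarse
import Pool.Agent.Lib.MP_acafa7_al.F.H70.KeyA
import Pool.Agent.Lib.MP_acafa7_al.F.H70.PStep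
import Pool.Agent.Lib.MP_acafa7_al.F.H70.TK
import Pool.Agent.Lib.MP_acafa7_al.F.H72.Sper
import Pool.Agent.Lib.MP_acafa7_al.F.H72.Vit
import Pool.Agent.Lib.MP_acafa7_al.F.H74.FillAll
import Pool.Agent.Lib.MP_acafa7_al.F.H75.Act
import Pool.Agent.Lib.MP_acafa7_al.F.H75.GenP
import Pool.Agent.Lib.MP_acafa7_al.F.H79.QFan
import Pool.Agent.Lib.MP_acafa7_al.F.H79.QGb
import Pool.Agent.Lib.MP_acafa7_al.F.H82.QPush
import Pool.Agent.Lib.MP_acafa7_al.F.H84.Ide
import Pool.Agent.Lib.MP_acafa7_al.F.H85.GrN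
import Pool.Agent.Lib.MP_acafa7_al.F.H85.TorB
import Pool.Agent.Lib.MP_acafa7_al.F.H87.D2H
import Pool.Agent.Lib.MP_acafa7_al.F.H93.GeoP
import Pool.Agent.Lib.MP_acafa7_al.F.H94.QFlip
import Pool.Agent.Lib.MP_acafa7_al.F.H97.QArea

/-! Assembly of the proof of Theorem F (PaperF.md). -/

namespace MSG

open Classical

theorem f_halg : HAlgStatement := F03.halg_st
theorem f_omc : OmCStatement := F16.omc_st
theorem f_psum : PSumStatement := F32.psum_st
theorem f_tku : TkUStatement := F65.tku_st f_halg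
theorem f_tka : TkAStatement := F24.tka_st f_halg
theorem f_tk : TkStatement := F70.tk_st f_halg f_omc f_tku f_tka
theorem f_col : ColStatement := F69.col_st
theorem f_coset : CosetStatement := F69.coset_st
theorem f_cmap2 : CMap2Statement := F65.cmap2_st f_col f_coset
theorem f_cmap1 : CMap1Statement := F69.cmap1_st f_col f_coset
theorem f_avg : AvgStatement := F32.avg_st
theorem f_fix : FixStatement := F32.fix_st f_psum
theorem f_free : FreeStatement := F32.free_st
theorem f_engc : EngCStatement := F63.engc_st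
theorem f_enge : EngEStatement := F32.enge_st f_avg f_fix f_free
theorem f_crn : CrnStatement := F4.crn_st
theorem f_idc : IdcStatement := F31.idc_st f_halg
theorem f_ide : IdeStatement := F84.ide_st f_halg f_idc
theorem f_prope : PropEStatement := F06.prope_st f_tk f_cmap1 f_crn f_ide f_enge
theorem f_ls : LSStatement := F66.ls_st f_prope
theorem f_cona : ConAStatement := F47.cona_st f_tk f_cmap1 f_crn f_idc f_engc
theorem f_con : ConStatement := F65.con_st f_cona
theorem f_sper : SperStatement := F72.sper_st f_halg f_psum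
theorem f_vit : VitStatement := F72.vit_st
theorem f_genp : GenPStatement := F75.genp_st
theorem f_bna : BNAStatement := F49.bna_st
theorem f_torb : TorBStatement := F85.torb_st
theorem f_qcb : QCBStatement := F31.qcb_st
theorem f_qgb : QGBStatement := F79.qgb_st
theorem f_qfan : QFanStatement := F79.qfan_st
theorem f_qarea : QAreaStatement := F97.qarea_st
theorem f_qflip : QFlipStatement := F94.qflip_st f_qarea
theorem f_qinb : QInBStatement := F24.qinb_st f_qflip
theorem f_qhair : QHairStatement := F64.qhair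
theorem f_qpush : QPushStatement := F82.qpush_st
theorem f_fanarea : FanAreaStatement := F32.fanarea_st
theorem f_brg : BrgStatement := F09.brg_st
theorem f_pstep : PStepStatement := F70.pstep_st f_brg
theorem f_pfill : PFillStatement := F09.pfill_st f_brg
theorem f_pred : PRedStatement := F55.pred_st f_brg
theorem f_pex : PExStatement := F23.pex_st f_pstep
theorem f_d2h : D2HStatement := F87.d2h_st
theorem f_nulh : NulHStatement := F19.nulh_st f_halg
theorem f_quadn : QuadNStatement := F59.quadn_st f_pex f_d2h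
theorem f_restr : RestrStatement := F08.restr_st
theorem f_fillall : FillAllStatement := F74.fillall_st f_pfill
theorem f_grow : GrowStatement := F38.grow_st f_quadn f_restr f_fillall
theorem f_grn : GrNStatement := F85.grn_st
theorem f_geo : GeoStatement := F47.geo_st f_pex f_d2h f_nulh f_grow f_grn
theorem f_geop : GeoPStatement := F93.geop_st f_geo f_halg
theorem f_spha : SphAStatement := F03.spha_st
theorem f_cst : CstStatement := F31.cst_st
theorem f_act : ActStatement := F75.act_st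
theorem f_solv : SolvStatement := F85.solv_st

end MSG
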