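import Pool.Agent.Lib.MP_acafa7_al.F.Defs

/-! Statements of the coarse part (PaperF sections 3-8).  One module = one statement. -/

namespace MSG

open Classical

/-! ### Homotopy algebra with weights -/

/-- HALG: algebra of weighted homotopies. -/
def HAlgStatement : Prop :=
  ∀ (V A : Type) [AddCommGroup A] (G : SimpleGraph V) (S : Set V) (ω : V → V → V → A),
    (∀ l l' l'' e e', HomA G S ω l l' e → HomA G S ω l' l'' e' → HomA G S ω l l'' (e + e')) ∧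
    (∀ u v l l' e, HomA G S ω l l' e → HomA G S ω (u ++ l ++ v) (u ++ l' ++ v) e) ∧
    (∀ l l' e, (∀ x ∈ l, x ∈ S) → HomA G S ω l l' e →
      (∀ x ∈ l', x ∈ S) ∧ HomA G S ω l' l (-e)) ∧
    (∀ l l' e (A' : Type) [AddCommGroup A'] (ω' : V → V → V → A'), HomA G S ω l l' e →
      ∃ e', HomA G S ω' l l' e') ∧
    (∀ l l' e (S' : Set V), S ⊆ S' → HomA G S ω l l' e → HomA G S' ω l l' e) ∧
    (∀ l l' e x y, HomA G S ω l l' e → IsW G x y l → IsW G x y l') ∧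
    (∀ l l' e, Alt3 ω → HomA G S ω l l' e → HomA G S ω l.reverse l'.reverse (-e)) ∧
    (∀ l x y, IsW G x y l → (∀ z ∈ l, z ∈ S) → HomA G S ω (cat l l.reverse) [x] 0) ∧
    (∀ (b : Equiv.Perm V), (∀ x y, G.Adj (b x) (b y) ↔ G.Adj x y) → ∀ l l' e,
      HomA G S ω l l' e → HomA G (b '' S) (fun x y z => ω (b.symm x) (b.symm y) (b.symm z))
        (l.map b) (l'.map b) e) ∧
    (∀ (A' : Type) [AddCommGroup A'] (φ : A →+ A') l l' e, HomA G S ω l l' e →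
      HomA G S (fun x y z => φ (ω x y z)) l l' (φ e)) ∧
    (∀ x y z l l' m e, IsW G x y m → IsW G y z l → HomA G S ω l l' e →
      HomA G S ω (cat m l) (cat m l') e) ∧
    (∀ x y z l l' m e, IsW G x y l → IsW G y z m → HomA G S ω l l' e →
      HomA G S ω (cat l m) (cat l' m) e)

/-- OMC: the weight function of a coarse map is a cocycle. -/
def OmCStatement : Prop :=
  ∀ (V : Type) (G : SimpleGraph V) (B : Type) [Group B] [MulAction B V] (S : Set V) (Y : Type)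
    [MulAction B Y] (π : V → Y) (c : Y → ℕ), CM G B S π c → CocA G S (om π c) ∧ No3 (Ch2 Y)

/-- Facts on the weights of homotopies for a coarse map. -/
structure Tk {V : Type} (G : SimpleGraph V) (B : Type) [Group B] [MulAction B V] (S : Set V)
    {Y : Type} [Fintype Y] [MulAction B Y] (π : V → Y) (c : Y → ℕ) : Prop where
  ex : ∀ S' ⊆ S, ∀ l l', HomN G S' l l' → ∃ e, HomA G S' (om π c) l l' e
  uniq : ∀ x y l l' e e', IsW G x y l → (∀ v ∈ l, v ∈ S) → HomA G S (om π c) l l' e →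
    HomA G S (om π c) l l' e' → e = e'
  bd : ∀ x y l l' e, IsW G x y l → (∀ v ∈ l, v ∈ S) → HomA G S (om π c) l l' e →
    bd2 c e = edw π c l - edw π c l' ∧ Inc2 c e
  bde : ∀ x y l, IsW G x y l → (∀ v ∈ l, v ∈ S) → Inc1 c (edw π c l) ∧
    bd1 (edw π c l) = fun P => kr (π y) P - kr (π x) P
  eqv : ∀ (b : B), ∀ S' ⊆ S, ∀ l l' e, (∀ v ∈ l, v ∈ S') → HomA G S' (om π c) l l' e →
    HomA G {v | b⁻¹ • v ∈ S'} (om π c) (l.map (b • ·)) (l'.map (b • ·)) (ac2 b e)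
  eqe : ∀ (b : B) l, (∀ v ∈ l, v ∈ S) → edw π c (l.map (b • ·)) = ac1 b (edw π c l)
  cate : ∀ x y z l m, IsW G x y l → IsW G y z m → edw π c (cat l m) = edw π c l + edw π c m
  supp : ∀ S' ⊆ S, ∀ l l' e, (∀ v ∈ l, v ∈ S') → HomA G S' (om π c) l l' e → ∀ P Q R,
    e P Q R ≠ 0 → ∃ x ∈ S', ∃ y ∈ S', ∃ z ∈ S', G.Adj x y ∧ G.Adj y z ∧ G.Adj x z ∧
      π x = P ∧ π y = Q ∧ π z = R
  suppe : ∀ x y l, IsW G x y l → ∀ P Q, edw π c l P Q ≠ 0 →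
    ∃ u ∈ l, ∃ v ∈ l, G.Adj u v ∧ π u = P ∧ π v = Q
  fib : ∀ U ⊆ S, (∀ x ∈ U, ∀ y ∈ U, π x = π y) → ∀ l l' e, (∀ v ∈ l, v ∈ U) →
    HomA G U (om π c) l l' e → e = 0
  fibe : ∀ U ⊆ S, (∀ x ∈ U, ∀ y ∈ U, π x = π y) → ∀ l, (∀ v ∈ l, v ∈ U) → edw π c l = 0

/-- TKA: everything except uniqueness. -/
def TkAStatement : Prop :=
  ∀ (V : Type) (G : SimpleGraph V) (B : Type) [Group B] [MulAction B V], Aut G B →
    ∀ (S : Set V) (Y : Type) [Fintype Y] [MulAction B Y] (π : V → Y) (c : Y → ℕ),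
    CM G B S π c → (∀ x y l l' e e', IsW G x y l → (∀ v ∈ l, v ∈ S) →
      HomA G S (om π c) l l' e → HomA G S (om π c) l l' e' → e = e') → Tk G B S π c

/-- TKU: uniqueness, from the sphere property. -/
def TkUStatement : Prop :=
  ∀ (V A : Type) [AddCommGroup A] (G : SimpleGraph V) (S : Set V) (ω : V → V → V → A),
    (∀ (x : V) (e : A), x ∈ S → HomA G S ω [x] [x] e → e = 0) → ∀ x y l l' e e', IsW G x y l →
    (∀ v ∈ l, v ∈ S) → HomA G S ω l l' e → HomA G S ω l l' e' → e = e'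

/-- TK -/
def TkStatement : Prop :=
  ∀ (V : Type) (G : SimpleGraph V) (C : ℕ), CoarseHyp G C → ∀ (B : Type) [Group B]
    [MulAction B V], Aut G B → ∀ (S : Set V) (Y : Type) [Fintype Y] [MulAction B Y] (π : V → Y)
    (c : Y → ℕ), CM G B S π c → Tk G B S π c

/-! ### Colourings and coarse maps -/

/-- COL (3.1) -/
def ColStatement : Prop :=
  ∀ (S : Type) [Fintype S] (R : S → S → Prop) (D : S → S → ℕ) (ρ : S → ℕ),
    (∀ x y, R x y → R y x) → (∀ x, D x x = 0) → (∀ x y z, R y z → D x z ≤ D x y + 1) →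
    (∀ x, 10 ≤ ρ x) → (∀ x, 40 * (Finset.univ.filter (fun y => D x y ≤ ρ x)).card ≤ (ρ x) ^ 3) →
    ∃ col : S → Fin 3, ∀ y, ∃ x, ∀ z,
      Relation.ReflTransGen (fun u v => R u v ∧ col u = col v) y z → D x z ≤ ρ x

/-- one exchange step of COL: a smallest set cutting `A` into small pieces is thin -/
def ColEStatement : Prop :=
  ∀ (S : Type) [Fintype S] (R : S → S → Prop) (D : S → S → ℕ) (ρ : S → ℕ) (A : Finset S),
    (∀ x y, R x y → R y x) → (∀ x, D x x = 0) → (∀ x y z, R y z → D x z ≤ D x y + 1) →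
    ∃ W ⊆ A, (∀ y ∈ A \ W, ∃ x, ∀ z,
        Relation.ReflTransGen (fun u v => R u v ∧ u ∈ A \ W ∧ v ∈ A \ W) y z → D x z ≤ ρ x) ∧
      ∀ x r, r ≤ ρ x → (W.filter (fun y => D x y ≤ r)).card ≤ (A.filter (fun y => D x y = r)).card

/-- COSET (3.2) -/
def CosetStatement : Prop :=
  ∀ (V : Type) (G : SimpleGraph V), G.Connected → ∀ (B : Type) [Group B] [Fintype B]
    [MulAction B V], Aut G B → ∀ (K : Set V) (x : V) (r : ℕ),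
    (∀ y ∈ K, ∀ y' ∈ K, Relation.ReflTransGen (fun u v => u ∈ K ∧ v ∈ K ∧ G.Adj u v) y y') →
    (∀ y ∈ K, ∃ b : B, G.dist y (b • x) ≤ r) →
    (∀ y ∈ K, ∀ y' ∈ K, G.dist y y' ≤ 2 * r + Fintype.card B * (2 * r + 1)) ∧
    ((∀ b : B, ∀ y ∈ K, b • y ∈ K) → K.Nonempty →
      Subgroup.closure {b : B | G.dist x (b • x) ≤ 2 * r + 1} = ⊤)

/-- distance between the orbits of `x` and `y` -/
noncomputable def dH {V : Type} (G : SimpleGraph V) (H : Type) [Group H] [MulAction H V]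
    (x y : V) : ℕ := sInf {n | ∃ h : H, G.dist x (h • y) = n}

/-- CMAP2: coarse map with variable scale for a finite group; `T` = representatives. -/
def CMap2Statement : Prop :=
  ∀ (V : Type) (G : SimpleGraph V), G.Connected → ∀ (H : Type) [Group H] [Fintype H]
    [MulAction H V], Aut G H → ∀ (S T : Finset V) (r₀ : ℕ), 10 ≤ r₀ → S.Nonempty →
    (∀ (h : H), ∀ x ∈ S, h • x ∈ S) → T ⊆ S → (∀ y ∈ S, ∃ x ∈ T, ∃ h : H, y = h • x) →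
    (∀ x ∈ T, ∀ y ∈ T, ∀ h : H, y = h • x → x = y) →
    ∃ (ρ : V → ℕ) (Y : Type) (_ : Fintype Y) (_ : MulAction H Y) (π : V → Y) (c : Y → ℕ)
      (ct : Y → V), CM G H (S : Set V) π c ∧ (∀ v : Y, ∃ x ∈ S, π x = v) ∧ (∀ v, ct v ∈ T) ∧
      (∀ y ∈ S, dH G H (ct (π y)) y ≤ ρ (ct (π y))) ∧
      (∀ x ∈ T, r₀ ≤ ρ x ∧ (r₀ < ρ x →
        (ρ x - 1) ^ 3 < 40 * (T.filter (fun y => dH G H x y ≤ ρ x - 1)).card)) ∧
      (∀ v, (∀ h : H, h • v = v) →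
        Subgroup.closure {h : H | G.dist (ct v) (h • ct v) ≤ 2 * ρ (ct v) + 1} = ⊤)

/-- bound for the diameters of the components -/
def rB (B : Type) [Fintype B] (r : ℕ) : ℕ := 2 * r + Fintype.card B * (2 * r + 1)

/-- CMAP1: coarse map with one scale and collapsed corner sets. -/
def CMap1Statement : Prop :=
  ∀ (V : Type) (G : SimpleGraph V), G.Connected → ∀ (B : Type) [Group B] [Fintype B]
    [MulAction B V], Aut G B → ∀ (S : Finset V) (r : ℕ) (I : Type) [MulAction B I]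
    (U : I → Set V), S.Nonempty → (∀ (b : B), ∀ x ∈ S, b • x ∈ S) → 10 ≤ r →
    40 * S.card ≤ r ^ 3 → (∀ i, (U i).Nonempty ∧ U i ⊆ S) →
    (∀ (b : B) i x, x ∈ U i → b • x ∈ U (b • i)) →
    (∀ i j, i ≠ j → ∀ x ∈ U i, ∀ y ∈ U j, 2 * rB B r + 1 < G.dist x y) →
    ∃ (Y : Type) (_ : Fintype Y) (_ : MulAction B Y) (π : V → Y) (c : Y → ℕ) (u : I → Y),
      CM G B (S : Set V) π c ∧ (∀ i x, x ∈ U i → π x = u i) ∧ (∀ (b : B) i, b • u i = u (b • i)) ∧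
      (∀ i j, u i = u j → i = j) ∧ (∀ v : Y, ∃ x ∈ S, π x = v) ∧
      (∀ i, ∀ x ∈ S, π x = u i → ∃ y ∈ U i, G.dist x y ≤ rB B r) ∧
      (∀ x ∈ S, ∀ y ∈ S, π x = π y → (∀ i, π x ≠ u i) → G.dist x y ≤ rB B r)

/-! ### Algebra (section 4) -/

/-- PSUM: invariant sums over sets with an action of a `p`-group -/
def PSumStatement : Prop :=
  ∀ (p : ℕ) [Fact p.Prime] (H X : Type) [Group H] [Finite H] [Fintype X] [MulAction H X],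
    IsPGroup p H → ∀ f : X → ZMod p, (∀ (h : H) x, f (h • x) = f x) →
    ∑ x : X, f x = ∑ x ∈ Finset.univ.filter (fun x : X => ∀ h : H, h • x = x), f x

/-- AVG (4.1) -/
def AvgStatement : Prop :=
  ∀ (B Y : Type) [Group B] [Fintype B] [MulAction B Y] (B' : Subgroup B) (D : B → Ch2 Y),
    (∀ b ∈ B', ∀ b' ∈ B', D (b * b') = D b + ac2 b (D b')) →
    ∃ D' : Ch2 Y, (∀ b ∈ B', D' - ac2 b D' = D b) ∧
      ∀ P Q R, (∀ b ∈ B', D b P Q R = 0) → D' P Q R = 0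

/-- restriction to simplices fixed by `B'` -/
noncomputable def fx2 {B Y : Type} [Group B] [MulAction B Y] (B' : Subgroup B) (N : Ch2 Y) :
    Ch2 Y := fun P Q R => if ∀ b ∈ B', b • P = P ∧ b • Q = Q ∧ b • R = R then N P Q R else 0
noncomputable def fx1 {B Y : Type} [Group B] [MulAction B Y] (B' : Subgroup B) (ν : Ch1 Y) :
    Ch1 Y := fun P Q => if ∀ b ∈ B', b • P = P ∧ b • Q = Q then ν P Q else 0

/-- FIX (4.2) -/
def FixStatement : Prop :=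
  ∀ (p : ℕ) [Fact p.Prime] (B Y : Type) [Group B] [Fintype B] [Fintype Y] [MulAction B Y]
    (c : Y → ℕ), IsPGroup p B → (∀ (b : B) y, c (b • y) = c y) → ∀ B' : Subgroup B,
    (∀ N : Ch2 Y, (∀ b ∈ B', ac2 b N = N) → ∀ P Q, (∀ b ∈ B', b • P = P ∧ b • Q = Q) →
      ((bd2 c (fx2 B' N) P Q : ℤ) : ZMod p) = ((bd2 c N P Q : ℤ) : ZMod p)) ∧
    (∀ ν : Ch1 Y, (∀ b ∈ B', ac1 b ν = ν) → ∀ P, (∀ b ∈ B', b • P = P) →
      ((bd1 (fx1 B' ν) P : ℤ) : ZMod p) = ((bd1 ν P : ℤ) : ZMod p))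

/-- CONNP (4.3) -/
def ConnPStatement : Prop :=
  ∀ (p : ℕ) [Fact p.Prime] (B Y : Type) [Group B] [Fintype B] [Fintype Y] [MulAction B Y],
    IsPGroup p B → ∀ (ν : Ch1 Y) (y₀ y₁ : Y), (∀ b : B, ac1 b ν = ν) → (∀ b : B, b • y₀ = y₀) →
    (∀ b : B, b • y₁ = y₁) → (bd1 ν = fun P => kr y₁ P - kr y₀ P) →
    ∃ (l : ℕ) (v : ℕ → Y), v 0 = y₀ ∧ v l = y₁ ∧ (∀ i, i ≤ l → ∀ b : B, b • v i = v i) ∧
      ∀ i, i < l → ν (v i) (v (i + 1)) ≠ 0 ∨ ν (v (i + 1)) (v i) ≠ 0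

/-- FREE (4.4) -/
def FreeStatement : Prop :=
  ∀ (p : ℕ) [Fact p.Prime] (P : Type) [Fintype P] (c : P → ℕ) (z : Equiv.Perm P), z ^ p = 1 →
    (∀ x, z x ≠ x) → (∀ x, c (z x) = c x) →
    ∀ (E : P → P → P → ZMod p) (ν : P → P → ZMod p) (y : P),
    (∀ u v w, ¬ (c u < c v ∧ c v < c w) → E u v w = 0) → (∀ u v, ¬ c u < c v → ν u v = 0) →
    (∀ u v w, E (z u) (z v) (z w) = E u v w) →
    (∀ u v, c u < c v → ∑ R, (E u v R - E u R v + E R u v) =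
      ∑ i ∈ Finset.range p, ν ((z ^ i).symm u) ((z ^ i).symm v)) →
    (∀ u, ∑ Q, (ν Q u - ν u Q) = (if z y = u then 1 else 0) - (if y = u then 1 else 0)) → False

/-- ENGC: connectivity engine (4.1 + 4.3 + 4.5) -/
def EngCStatement : Prop :=
  ∀ (p : ℕ) [Fact p.Prime] (B Y : Type) [Group B] [Fintype B] [Fintype Y] [MulAction B Y]
    (c : Y → ℕ), IsPGroup p B → (∀ (b : B) y, c (b • y) = c y) →
    ∀ (γ : Ch1 Y) (D : B → Ch2 Y) (y₀ y₁ : Y), Inc1 c γ → (∀ b, Inc2 c (D b)) →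
    (∀ b b', D (b * b') = D b + ac2 b (D b')) → (∀ b, bd2 c (D b) = γ - ac1 b γ) →
    (bd1 γ = fun P => kr y₁ P - kr y₀ P) → (∀ b : B, b • y₀ = y₀) → (∀ b : B, b • y₁ = y₁) →
    ∃ (l : ℕ) (v : ℕ → Y), v 0 = y₀ ∧ v l = y₁ ∧ (∀ i, i ≤ l → ∀ b : B, b • v i = v i) ∧
      ∀ i, i < l → (γ (v i) (v (i + 1)) ≠ 0 ∨ γ (v (i + 1)) (v i) ≠ 0) ∨
        Fintype.card B ≤ 2 * (Finset.univ.filter (fun b => InSupp (D b) (v i) (v (i + 1)))).card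

/-- ENGE: existence engine (4.1 + 4.2 + 4.4, end of the proof of 5.1) -/
def EngEStatement : Prop :=
  ∀ (p : ℕ) [Fact p.Prime] (B Y : Type) [Group B] [Fintype B] [Fintype Y] [MulAction B Y]
    (c : Y → ℕ), (∀ a b : B, a * b = b * a) → IsPGroup p B → (∀ (b : B) y, c (b • y) = c y) →
    ∀ (B' : Subgroup B) (z : B), B'.index = p → z ∉ B' →
    ∀ (γ : Ch1 Y) (D : B → Ch2 Y) (Dm : Ch2 Y) (y : Y), Inc1 c γ → (∀ b ∈ B', Inc2 c (D b)) →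
    Inc2 c Dm → (∀ b ∈ B', ∀ b' ∈ B', D (b * b') = D b + ac2 b (D b')) →
    (∀ b ∈ B', bd2 c (D b) = γ - ac1 b γ) → (bd1 γ = fun P => kr (z • y) P - kr y P) →
    (∀ b ∈ B', b • y = y) →
    (∀ b ∈ B', Dm - ac2 b Dm = ∑ i ∈ Finset.range p, ac2 (z ^ i) (D b)) →
    (Dm - ac2 z Dm = D (z ^ p)) → (bd2 c Dm = ∑ i ∈ Finset.range p, ac1 (z ^ i) γ) →
    ∃ v : Y, ∀ b : B, b • v = v

/-! ### Sections 5 and 6 -/

/-- CRN: corner sets.  Coherent walks from `x` to `b x` and homotopies near the orbit of `x`. -/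
def CrnStatement : Prop :=
  ∀ (V : Type) (G : SimpleGraph V) (C : ℕ), CoarseHyp G C → ∀ (B : Type) [Group B] [Fintype B]
    [MulAction B V], Aut G B → ∀ (B' : Subgroup B) (c : ℕ), ∃ (R n : ℕ), ∀ x : V,
    (∀ b ∈ B', G.dist x (b • x) ≤ c) →
    ∃ (al : B → List V) (U : Finset V), x ∈ U ∧ U.card ≤ n ∧ (∀ b ∈ B', ∀ v ∈ U, b • v ∈ U) ∧
      (∀ v ∈ U, G.dist x v ≤ R) ∧
      (∀ b ∈ B', IsW G x (b • x) (al b) ∧ (al b).length ≤ c + 1 ∧ ∀ v ∈ al b, v ∈ U) ∧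
      (∀ b ∈ B', ∀ b' ∈ B',
        HomN G (U : Set V) (al (b * b')) (cat (al b) ((al b').map (b • ·))))

/-- corner data at `x` for the subgroup `B'`: coherent walks in `U` -/
structure Corner {V : Type} (G : SimpleGraph V) {B : Type} [Group B] [MulAction B V]
    (B' : Subgroup B) (x : V) (al : B → List V) (U : Set V) : Prop where
  wk : ∀ b ∈ B', IsW G x (b • x) (al b)
  mem : ∀ b ∈ B', ∀ v ∈ al b, v ∈ U
  inv : ∀ b ∈ B', ∀ v ∈ U, b • v ∈ U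
  hom : ∀ b ∈ B', ∀ b' ∈ B', HomN G U (al (b * b')) (cat (al b) ((al b').map (b • ·)))

/-- IDC: the chains of the squares and their cocycle identity -/
def IdcStatement : Prop :=
  ∀ (V : Type) (G : SimpleGraph V) (B : Type) [Group B] [MulAction B V], Aut G B →
    ∀ (S : Set V) (Y : Type) [Fintype Y] [MulAction B Y] (π : V → Y) (c : Y → ℕ),
    CM G B S π c → Tk G B S π c → ∀ (B' : Subgroup B) (x y : V) (γ : List V)
    (al al' : B → List V) (U U' : Set V) (W : B → Set V), IsW G x y γ → (∀ v ∈ γ, v ∈ S) →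
    Corner G B' x al U → Corner G B' y al' U' → U ⊆ S → U' ⊆ S →
    (∀ v ∈ U, ∀ w ∈ U, π v = π w) → (∀ v ∈ U', ∀ w ∈ U', π v = π w) →
    (∀ b ∈ B', W b ⊆ S ∧ (∀ v ∈ cat γ (al' b), v ∈ W b) ∧
      HomN G (W b) (cat γ (al' b)) (cat (al b) (γ.map (b • ·)))) →
    ∃ D : B → Ch2 Y, (∀ b ∈ B', HomA G (W b) (om π c) (cat γ (al' b))
        (cat (al b) (γ.map (b • ·))) (D b)) ∧
      (∀ b ∈ B', ∀ b' ∈ B', D (b * b') = D b + ac2 b (D b')) ∧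
      (∀ b ∈ B', bd2 c (D b) = edw π c γ - ac1 b (edw π c γ) ∧ Inc2 c (D b))

/-- concatenation of `β 0, .., β (n-1)`, walk starting at `x` -/
def catN {V : Type} (β : ℕ → List V) (x : V) : ℕ → List V
  | 0 => [x]
  | n + 1 => cat (catN β x n) (β n)

/-- IDE: all identities of the proof of 5.1 -/
def IdeStatement : Prop :=
  ∀ (V : Type) (G : SimpleGraph V) (B : Type) [Group B] [MulAction B V], Aut G B →
    (∀ a b : B, a * b = b * a) →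
    ∀ (S : Set V) (Y : Type) [Fintype Y] [MulAction B Y] (π : V → Y) (c : Y → ℕ),
    CM G B S π c → Tk G B S π c → ∀ (B' : Subgroup B) (z : B) (p : ℕ) (x : V) (γ : List V)
    (al : B → List V) (U : Set V) (W : B → Set V) (Wm : Set V), 1 ≤ p → z ^ p ∈ B' →
    IsW G x (z • x) γ → (∀ v ∈ γ, v ∈ S) → Corner G B' x al U → U ⊆ S →
    (∀ v ∈ U, ∀ w ∈ U, π v = π w) →
    (∀ b ∈ B', W b ⊆ S ∧ (∀ v ∈ cat γ ((al b).map (z • ·)), v ∈ W b) ∧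
      HomN G (W b) (cat γ ((al b).map (z • ·))) (cat (al b) (γ.map (b • ·)))) →
    Wm ⊆ S → (∀ v ∈ catN (fun i => γ.map (z ^ i • ·)) x p, v ∈ Wm) →
    HomN G Wm (catN (fun i => γ.map (z ^ i • ·)) x p) (al (z ^ p)) →
    ∃ (D : B → Ch2 Y) (Dm : Ch2 Y), (∀ b ∈ B', Inc2 c (D b)) ∧ Inc2 c Dm ∧
      (∀ b ∈ B', ∀ b' ∈ B', D (b * b') = D b + ac2 b (D b')) ∧
      (∀ b ∈ B', bd2 c (D b) = edw π c γ - ac1 b (edw π c γ)) ∧
      (∀ b ∈ B', Dm - ac2 b Dm = ∑ i ∈ Finset.range p, ac2 (z ^ i) (D b)) ∧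
      (Dm - ac2 z Dm = D (z ^ p)) ∧
      (bd2 c Dm = ∑ i ∈ Finset.range p, ac1 (z ^ i) (edw π c γ))

/-- PROPE (5.1) -/
def PropEStatement : Prop :=
  ∀ (V : Type) (G : SimpleGraph V) (C : ℕ), CoarseHyp G C → ∀ (p : ℕ) [Fact p.Prime] (B : Type)
    [Group B] [Fintype B] [MulAction B V], Aut G B → (∀ a b : B, a * b = b * a) → IsPGroup p B →
    ∀ (B' : Subgroup B) (z : B), B'.index = p → z ∉ B' → ∀ c₀ : ℕ, ∃ CB : ℕ, ∀ (x : V) (K : ℕ),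
    1 ≤ K → (∀ b ∈ B', G.dist x (b • x) ≤ c₀) → G.dist x (z • x) ≤ K →
    ∃ u, G.dist x u ≤ CB * K ∧ ∃ m : ℕ, m ^ 3 ≤ CB * K ^ 2 ∧ Dp G B u m

/-- the property LS of a group with constants -/
def LSP {V : Type} (G : SimpleGraph V) (B : Type) [Group B] [MulAction B V] (c L : ℕ) : Prop :=
  ∀ (x : V) (K : ℕ), Dp G B x K → ∃ x', Dp G B x' c ∧ G.dist x x' ≤ L * (1 + K)

/-- LS (5.2) -/
def LSStatement : Prop :=
  ∀ (V : Type) (G : SimpleGraph V) (C : ℕ), CoarseHyp G C → ∀ (p : ℕ) [Fact p.Prime] (B : Type)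
    [Group B] [Fintype B] [MulAction B V], Aut G B → (∀ a b : B, a * b = b * a) → IsPGroup p B →
    ∃ c L, LSP G B c L

/-- the points moved by at most `c` -/
def Fc {V : Type} (G : SimpleGraph V) (B : Type) [Group B] [MulAction B V] (c : ℕ) : Set V :=
  {x | Dp G B x c}

/-- number of jumps -/
def C6 (C s : ℕ) : ℕ := 1000 * (C + 1) * (1 + s) ^ 2

/-- CONA: chain of almost fixed points (6.1), before counting -/
def ConAStatement : Prop :=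
  ∀ (V : Type) (G : SimpleGraph V) (C : ℕ), CoarseHyp G C → ∀ (p : ℕ) [Fact p.Prime] (B : Type)
    [Group B] [Fintype B] [MulAction B V], Aut G B → IsPGroup p B → ∀ c L, LSP G B c L →
    ∀ η : ℕ, ∃ K₀ : ℕ, ∀ x y, Dp G B x c → Dp G B y c → K₀ ≤ G.dist x y →
    ∃ (e l : ℕ) (q : ℕ → V) (γ : List V) (W : B → Finset V), η * e ≤ G.dist x y ∧
      IsW G x y γ ∧ γ.length = G.dist x y + 1 ∧ q 0 = x ∧ q l = y ∧
      (∀ i, i ≤ l → q i ∈ Fc G B c) ∧ (∀ i, i < l → G.dist (q i) (q (i + 1)) ≤ e) ∧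
      (∀ (b : B) (s : ℕ) (T : Finset V), T ⊆ W b → (∀ u ∈ T, ∀ v ∈ T, u ≠ v → s ≤ G.dist u v) →
        s ^ 2 * T.card ≤ C * (s + 3 * G.dist x y) ^ 2) ∧
      ∀ i, i < l → (∃ u ∈ γ, G.dist (q i) u ≤ e) ∨ Fintype.card B ≤
        2 * (Finset.univ.filter (fun b : B => ∃ u ∈ W b, G.dist (q i) u ≤ e)).card

/-- CON (6.1) -/
def ConStatement : Prop :=
  ∀ (V : Type) (G : SimpleGraph V) (C : ℕ), CoarseHyp G C → ∀ (p : ℕ) [Fact p.Prime] (B : Type)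
    [Group B] [Fintype B] [MulAction B V], Aut G B → IsPGroup p B → ∀ c L, LSP G B c L →
    ∀ s : ℕ, ∃ K₀ : ℕ, ∀ k, K₀ ≤ k → ∀ x y, Dp G B x c → Dp G B y c → G.dist x y ≤ s * k →
    Jmp G (Fc G B c) k (C6 C s) x y

/-! ### Section 7 -/

/-- signed number of `01`-edges -/
def cnt01 {V : Type} (μ : V → ℕ) : List V → ℤ
  | x :: y :: l => (if μ x = 0 ∧ μ y = 1 then 1 else if μ x = 1 ∧ μ y = 0 then -1 else 0) +
      cnt01 μ (y :: l)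
  | _ => 0

/-- CNT -/
def CntStatement : Prop :=
  ∀ (V : Type) (G : SimpleGraph V) (μ : V → ℕ), (∀ x, μ x ≤ 2) → ∀ (x₀ x₁ x₂ : V)
    (l₀ l₁ l₂ : List V), IsW G x₀ x₁ l₀ → IsW G x₁ x₂ l₁ → IsW G x₂ x₀ l₂ →
    (∀ v ∈ l₀, μ v = 0) → (∀ u v, [u, v] <:+: l₁ → ¬ (μ u = 0 ∧ μ v = 2) ∧ ¬ (μ u = 2 ∧ μ v = 0)) →
    (∀ u v, [u, v] <:+: l₂ → ¬ (μ u = 0 ∧ μ v = 1) ∧ ¬ (μ u = 1 ∧ μ v = 0)) → μ x₂ ≠ 0 →
    cnt01 μ (cat (cat l₀ l₁) l₂) = 1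

/-- SPER: a rainbow simplex fixed by the cyclic `p`-group `H` (7.1 (b)-(d)) -/
def SperStatement : Prop :=
  ∀ (V : Type) (G : SimpleGraph V) (p : ℕ) [Fact p.Prime] (H : Type) [Group H] [Fintype H]
    [MulAction H V], Aut G H → IsPGroup p H → ∀ z : H, (∀ h : H, h ∈ Subgroup.zpowers z) →
    ∀ (S : Set V) (Y : Type) [Fintype Y] [MulAction H Y] (π : V → Y) (c : Y → ℕ),
    CM G H S π c → Tk G H S π c → ∀ (lam : Y → ℕ), (∀ (h : H) y, lam (h • y) = lam y) →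
    (∀ y, lam y ≤ 2) → ∀ (n : ℕ) (q : ℕ → V) (β α : ℕ → List V) (Sm : Set V) (Sk : ℕ → Set V),
    q n = q 0 → α n = α 0 → (∀ i, i < n → IsW G (q i) (q (i + 1)) (β i)) →
    (∀ i, i ≤ n → IsW G (q i) (z • q i) (α i)) → Sm ⊆ S → (∀ v ∈ catN β (q 0) n, v ∈ Sm) →
    HomN G Sm (catN β (q 0) n) [q 0] → (∀ i, i < n → Sk i ⊆ S ∧ (∀ v ∈ β i, v ∈ Sk i) ∧
      (∀ v ∈ α i, v ∈ Sk i) ∧ (∀ v ∈ α (i + 1), v ∈ Sk i) ∧ (∀ v ∈ β i, z • v ∈ Sk i) ∧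
      HomN G (Sk i) (cat (β i) (α (i + 1))) (cat (α i) ((β i).map (z • ·)))) →
    (∀ i, i < n → ∀ x ∈ Sk i, ∀ y ∈ Sk i, ∀ w ∈ Sk i, G.Adj x y → G.Adj y w → G.Adj x w →
      lam (π x) = lam (π y) ∨ lam (π y) = lam (π w) ∨ lam (π x) = lam (π w)) →
    cnt01 (fun v => lam (π v)) (catN β (q 0) n) = 1 →
    ∃ x ∈ Sm, ∃ y ∈ Sm, ∃ w ∈ Sm, G.Adj x y ∧ G.Adj y w ∧ G.Adj x w ∧ lam (π x) = 0 ∧
      lam (π y) = 1 ∧ lam (π w) = 2 ∧ ∀ h : H, h • π x = π x ∧ h • π y = π y ∧ h • π w = π w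

/-- VIT: the bad parameters (7.1 (e)) -/
def VitStatement : Prop :=
  ∀ (T : Type) [Fintype T] (D : T → T → ℕ) (ρ : T → ℕ) (τ : T → ℤ × ℤ) (r₀ : ℕ), 1 ≤ r₀ →
    (∀ x, D x x = 0) → (∀ x y, D x y = D y x) → (∀ x y z, D x z ≤ D x y + D y z) →
    (∀ x y, |(τ x).1 - (τ y).1| ≤ 2 * D x y ∧ |(τ x).2 - (τ y).2| ≤ 2 * D x y) →
    (∀ x, r₀ < ρ x →
      (ρ x - 1) ^ 3 < 40 * (Finset.univ.filter (fun y => D x y ≤ ρ x - 1)).card) →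
    ∀ W : Finset (ℤ × ℤ), (∀ t ∈ W, ∃ x, r₀ < ρ x ∧ |t.1 - (τ x).1| ≤ 8 * ρ x ∧
      |t.2 - (τ x).2| ≤ 8 * ρ x) → r₀ * W.card ≤ 300000 * Fintype.card T

/-- distance from `x` to the `H`-orbits of the points `q a, .., q b` -/
noncomputable def fj {V : Type} (G : SimpleGraph V) (H : Type) [Group H] [MulAction H V]
    (q : ℕ → V) (a b : ℕ) (x : V) : ℕ :=
  sInf {n | ∃ i, a ≤ i ∧ i ≤ b ∧ ∃ h : H, G.dist x (h • q i) = n}

/-- Closed polygon `q 0, .., q n` of almost fixed points with sides of length at most `k`, three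
parts, no point near all three parts (7.1 (a)). -/
structure Pol {V : Type} (G : SimpleGraph V) (H : Type) [Group H] [MulAction H V]
    (C c k n : ℕ) (q : ℕ → V) (β : ℕ → List V) (i₁ i₂ : ℕ) : Prop where
  le1 : i₁ ≤ i₂
  le2 : i₂ ≤ n
  clo : q n = q 0
  fix : ∀ i, i ≤ n → Dp G H (q i) c
  wk : ∀ i, i < n → IsW G (q i) (q (i + 1)) (β i) ∧ (β i).length ≤ k + 1
  nt : ∀ x a b e, a ≤ i₁ → i₁ ≤ b → b ≤ i₂ → i₂ ≤ e → e ≤ n →
    G.dist x (q a) ≤ 8 * (3 * C + 2) * k → G.dist x (q b) ≤ 8 * (3 * C + 2) * k →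
    ¬ G.dist x (q e) ≤ 8 * (3 * C + 2) * k

/-- KEY1 (7.1 (b)-(d)): the fixed rainbow simplex for the parameter `(t₁, t₂)` -/
def Key1Statement : Prop :=
  ∀ (V : Type) (G : SimpleGraph V) (C : ℕ), CoarseHyp G C → ∀ (p : ℕ) [Fact p.Prime] (H : Type)
    [Group H] [Fintype H] [MulAction H V], Aut G H → IsPGroup p H → ∀ z : H,
    (∀ h : H, h ∈ Subgroup.zpowers z) → ∀ (c k n : ℕ) (q : ℕ → V) (β α : ℕ → List V)
    (i₁ i₂ : ℕ), Pol G H C c k n q β i₁ i₂ → 4 * c + 8 ≤ k →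
    (∀ i, i ≤ n → IsW G (q i) (z • q i) (α i) ∧ (α i).length ≤ c + 1) → α n = α 0 →
    ∀ (S Sm : Finset V) (Sk : ℕ → Finset V), Sm ⊆ S → (∀ i, i < n → Sk i ⊆ S) →
    Fil2 G C (catN β (q 0) n) [q 0] Sm →
    (∀ i, i < n → Fil2 G C (cat (β i) (α (i + 1))) (cat (α i) ((β i).map (z • ·))) (Sk i)) →
    ∀ (Y : Type) [Fintype Y] [MulAction H Y] (π : V → Y) (col : Y → ℕ) (ρ : V → ℕ)
    (ct : Y → V), CM G H (S : Set V) π col → (∀ v : Y, ∃ x ∈ S, π x = v) →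
    (∀ y ∈ S, dH G H (ct (π y)) y ≤ ρ (ct (π y))) → (∀ v, 100 * ρ (ct v) ≤ k) →
    ∀ t₁ t₂ : ℕ, 3 * (3 * C + 2) * k ≤ t₁ → t₁ ≤ 6 * (3 * C + 2) * k →
    3 * (3 * C + 2) * k ≤ t₂ → t₂ ≤ 6 * (3 * C + 2) * k →
    ∃ x ∈ Sm, ∃ y ∈ Sm, ∃ w ∈ Sm, G.Adj x y ∧ G.Adj y w ∧ G.Adj x w ∧
      (∀ h : H, h • π x = π x ∧ h • π y = π y ∧ h • π w = π w) ∧
      ∀ R : ℕ, ρ (ct (π x)) ≤ R → ρ (ct (π y)) ≤ R → ρ (ct (π w)) ≤ R →
        |(t₁ : ℤ) - ((fj G H q 0 i₁ x : ℤ) - fj G H q i₁ i₂ x)| ≤ 2 * R + 2 ∧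
        |(t₂ : ℤ) - ((fj G H q 0 i₁ x : ℤ) - fj G H q i₂ n x)| ≤ 2 * R + 2

/-- KEYA: construction of the sets and of the coarse map -/
def KeyAStatement : Prop :=
  ∀ (C N₀ : ℕ), ∃ Λ : ℕ, ∀ r₀ : ℕ, 10 ≤ r₀ → ∀ c : ℕ, ∃ K₀ : ℕ,
    ∀ (V : Type) (G : SimpleGraph V), CoarseHyp G C → ∀ (p : ℕ) [Fact p.Prime] (H : Type)
    [Group H] [Fintype H] [MulAction H V], Aut G H → IsPGroup p H → ∀ z : H,
    (∀ h : H, h ∈ Subgroup.zpowers z) → ∀ (k n : ℕ) (q : ℕ → V) (β : ℕ → List V)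
    (i₁ i₂ : ℕ), K₀ ≤ k → n ≤ N₀ → Pol G H C c k n q β i₁ i₂ → ∀ Sm : Finset V,
    Fil2 G C (catN β (q 0) n) [q 0] Sm →
    ∃ (T : Finset V) (ρ : V → ℕ), T.card ≤ Λ * k ^ 2 ∧
      (∀ x ∈ T, r₀ ≤ ρ x ∧ (r₀ < ρ x →
        (ρ x - 1) ^ 3 < 40 * (T.filter (fun y => dH G H x y ≤ ρ x - 1)).card)) ∧
      ∀ t₁ t₂ : ℕ, 3 * (3 * C + 2) * k ≤ t₁ → t₁ ≤ 6 * (3 * C + 2) * k →
        3 * (3 * C + 2) * k ≤ t₂ → t₂ ≤ 6 * (3 * C + 2) * k →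
        ∃ x ∈ Sm, ∃ x₀ ∈ T, ∃ x₁ ∈ T, ∃ x₂ ∈ T, dH G H x₀ x ≤ ρ x₀ ∧ dH G H x₁ x ≤ ρ x₁ + 1 ∧
          dH G H x₂ x ≤ ρ x₂ + 1 ∧
          Subgroup.closure {h : H | G.dist x₀ (h • x₀) ≤ 2 * ρ x₀ + 1} = ⊤ ∧
          ∀ R : ℕ, ρ x₀ ≤ R → ρ x₁ ≤ R → ρ x₂ ≤ R →
            |(t₁ : ℤ) - ((fj G H q 0 i₁ x : ℤ) - fj G H q i₁ i₂ x)| ≤ 2 * R + 2 ∧
            |(t₂ : ℤ) - ((fj G H q 0 i₁ x : ℤ) - fj G H q i₂ n x)| ≤ 2 * R + 2

/-- KEY (7.1 (e), (f)) -/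
def KeyStatement : Prop :=
  ∀ (C N₀ : ℕ), ∃ r₀ c₁ : ℕ, ∀ c : ℕ, ∃ K₀ : ℕ,
    ∀ (V : Type) (G : SimpleGraph V), CoarseHyp G C → ∀ (p : ℕ) [Fact p.Prime] (H : Type)
    [Group H] [Fintype H] [MulAction H V], Aut G H → IsPGroup p H → ∀ z : H,
    (∀ h : H, h ∈ Subgroup.zpowers z) → ∀ (k n : ℕ) (q : ℕ → V) (β : ℕ → List V)
    (i₁ i₂ : ℕ), K₀ ≤ k → n ≤ N₀ → Pol G H C c k n q β i₁ i₂ → ∀ Sm : Finset V,
    Fil2 G C (catN β (q 0) n) [q 0] Sm →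
    ∃ U ⊆ Sm, k ^ 2 ≤ c₁ * U.card ∧ ∀ u ∈ U, ∃ x, (∃ h : H, G.dist u (h • x) ≤ r₀) ∧
      Subgroup.closure {h : H | G.dist x (h • x) ≤ 2 * r₀ + 1} = ⊤

/-- GENP: generating sets of cyclic `p`-groups contain a generator -/
def GenPStatement : Prop :=
  ∀ (p : ℕ) [Fact p.Prime] (H : Type) [Group H] [Finite H], IsPGroup p H → IsCyclic H →
    ∀ s : Set H, Subgroup.closure s = ⊤ → (∀ g : H, g = 1) ∨ ∃ h ∈ s, ∀ g : H,
      g ∈ Subgroup.zpowers h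

/-- universal constant for the bottleneck property -/
def C3 (C : ℕ) : ℕ := 2 * C6 C (16 * (3 * C + 2))

/-- bottleneck property of the jump distance for paths with at most `N₀` jumps -/
def BNP {V : Type} (G : SimpleGraph V) (F : Set V) (k N₀ Δ : ℕ) : Prop :=
  ∀ (n l : ℕ) (P Q : ℕ → V), n ≤ N₀ → l ≤ N₀ → (∀ i, i ≤ n → P i ∈ F) →
    (∀ i, i < n → G.dist (P i) (P (i + 1)) ≤ k) → (∀ N, Jmp G F k N (P 0) (P n) → n ≤ N) →
    (∀ i, i ≤ l → Q i ∈ F) → (∀ i, i < l → G.dist (Q i) (Q (i + 1)) ≤ k) → P 0 = Q 0 →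
    P n = Q l → ∀ i, i ≤ n → ∃ j, j ≤ l ∧ Jmp G F k Δ (P i) (Q j)

/-- BNA (7.1 (a)): if the bottleneck property fails there is a polygon without triple points -/
def BNAStatement : Prop :=
  ∀ (V : Type) (G : SimpleGraph V), G.Connected → ∀ (B : Type) [Group B] [MulAction B V]
    (C c k N₀ : ℕ), 1 ≤ k →
    (∀ x y, Dp G B x c → Dp G B y c → G.dist x y ≤ 16 * (3 * C + 2) * k →
      Jmp G (Fc G B c) k (C6 C (16 * (3 * C + 2))) x y) →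
    BNP G (Fc G B c) k N₀ (C3 C) ∨
      ∃ (n : ℕ) (q : ℕ → V) (β : ℕ → List V) (i₁ i₂ : ℕ), n ≤ 2 * N₀ ∧
        Pol G B C c k n q β i₁ i₂

/-- BN (7.1) -/
def BNStatement : Prop :=
  ∀ (V : Type) (G : SimpleGraph V) (C : ℕ), CoarseHyp G C → ∀ (Γ : Type) [Group Γ]
    [MulAction Γ V], ActHyp G Γ → ∀ N₀ : ℕ, ∃ M : ℕ, ∀ (p : ℕ) [Fact p.Prime]
    (B : Subgroup Γ), Finite B → IsPGroup p B → (∀ a ∈ B, ∀ b ∈ B, a * b = b * a) →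
    (IsCyclic B ∨ ∀ b ∈ B, b ^ p = 1) → M < Nat.card B → ∀ c L, LSP G B c L →
    ∃ K₀ : ℕ, ∀ k, K₀ ≤ k → BNP G (Fc G B c) k N₀ (C3 C)

/-! ### Section 8 -/

/-- TORB: finite subgroups of infinite abelian torsion groups -/
def TorBStatement : Prop :=
  ∀ (Γ : Type) [Group Γ] (A : Subgroup Γ), (∀ a ∈ A, ∀ b ∈ A, a * b = b * a) →
    (∀ a ∈ A, IsOfFinOrder a) → (A : Set Γ).Infinite →
    (∀ M : ℕ, ∃ (p : ℕ) (_ : Fact p.Prime) (B : Subgroup Γ), B ≤ A ∧ Finite B ∧ IsPGroup p B ∧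
      (IsCyclic B ∨ ∀ b ∈ B, b ^ p = 1) ∧ M < Nat.card B) ∧
    (∀ M : ℕ, ∃ B : Subgroup Γ, B ≤ A ∧ Finite B ∧ M < Nat.card B)

/-- QCB: quasi-centre for a bounded bottleneck property -/
def QCBStatement : Prop :=
  ∀ (V : Type) (G : SimpleGraph V) (A : Type) [Group A] [MulAction A V], Aut G A →
    ∀ (F : Set V), (∀ (a : A), ∀ x ∈ F, a • x ∈ F) → ∀ (k N₁ Δ : ℕ), BNP G F k (2 * N₁) Δ →
    ∀ x₀ ∈ F, (∀ a : A, Jmp G F k N₁ x₀ (a • x₀)) →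
    ∃ c ∈ F, ∀ a : A, Jmp G F k (4 * Δ + 2) c (a • c)

/-- Theorem F from the coarse hypotheses -/
def ThmFCStatement : Prop :=
  ∀ (V : Type) (G : SimpleGraph V) (C : ℕ), CoarseHyp G C → ∀ (Γ : Type) [Group Γ]
    [MulAction Γ V], ActHyp G Γ → ∀ A : Subgroup Γ, (∀ a ∈ A, ∀ b ∈ A, a * b = b * a) →
    (∀ a ∈ A, IsOfFinOrder a) → (A : Set Γ).Finite

end MSG
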